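import Pool.Agent.Helper74.UB.Goals2

/-!
# UB, P2: at an event four boundary darts do not burn
-/

namespace Pool.Agent.Helper13.UB

open Finset Equiv Helper28.VF
open Pool.Agent.Helper74.UB
open scoped Classical

section aux
variable {D V E F : Type} [Fintype D] [Fintype V] [Fintype E] [Fintype F] {M : PM D V E F}

theorem ad_symm {u v : V} (h : Ad M u v) : Ad M v u := by
  obtain ⟨d, h1, h2⟩ := h
  refine ⟨M.α d, h2, ?_⟩
  unfold tg
  rw [M.α_inv]
  exact h1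

theorem mem_bd {O : Finset V} {d : D} : d ∈ bd M O ↔ Bd M O d := by
  simp [bd]

theorem p2_aux (hNxt : StmtNxt) (hSol : StmtSol) (hBdex : StmtBdex) (hFC : StmtFireCon)
    (hEvt : StmtEvt) (hExit : StmtExit) (hTail : StmtTail)
    (c : ℕ) (v₀ : V) (A Q : ℕ → Finset V) (hF : Fire M c v₀ A Q)
    (T : ℕ) (X : Finset V) (hX : Col M Q T X) (R₁ R₂ : Route M A Q X T) (hfar : R₁.Far R₂)
    (s t : ℕ) (O : Finset V) (hst : s < t) (htT : t ≤ T) (hO : IsComp M (Q t) O)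
    (h0 : R₁.p s 0 ∈ O) : be M O (A (s + 1)) + 4 ≤ (bd M O).card := by
  have hsT : s < T := by omega
  obtain ⟨hN1, hN2, hN3, hN4⟩ := hNxt D V E F M O
  obtain ⟨e1, e2, e3, e4, e5, e6⟩ := hEvt D V E F M c v₀ A Q hF T X hX R₁ s t hsT (le_of_lt hst) htT
    (hO.sub h0)
  obtain ⟨i, hi1, hin, hiO, hitail, d₀, hd₀, hvd₀⟩ := hExit D V E F M A Q T X hX R₁ s t O hsT htT
    hO.sub ⟨0, Nat.zero_le _, h0⟩
  obtain ⟨d₁, hd₁, hd₁n⟩ := hN4 d₀ hd₀
  obtain ⟨d₂, hd₂, hd₂n⟩ := hN4 d₁ hd₁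
  have hd₃ : nxt M O d₀ ∈ bd M O := hN2 d₀ hd₀
  have bvt : ∀ d ∈ bd M O, M.vt d ∉ O := fun d hd => (mem_bd.mp hd).2.1
  have htg1 : tg M d₁ = R₁.p s i := by
    rw [← hvd₀, ← hd₁n]; exact ((hN1 d₁ (bvt d₁ hd₁)).1).symm
  have htg2 : tg M d₂ = M.vt d₁ := by
    rw [← hd₂n]; exact ((hN1 d₂ (bvt d₂ hd₂)).1).symm
  have hv3 : M.vt (nxt M O d₀) = tg M d₀ := (hN1 d₀ (bvt d₀ hd₀)).1
  have hAx : Ad M (R₁.p s i) (M.vt d₁) := ad_symm ⟨d₁, rfl, htg1⟩
  have hAy : Ad M (R₁.p s i) (tg M d₀) := ⟨d₀, hvd₀, rfl⟩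
  have hbA : R₁.p s i ∉ A (s + 1) := e5 i hin
  have hxA : M.vt d₁ ∉ A (s + 1) := e6 i hi1 hin _ hAx
  have hyA : tg M d₀ ∉ A (s + 1) := e6 i hi1 hin _ hAy
  have hdisj : ∀ r, Disjoint O (A r) := fun r =>
    Finset.disjoint_of_subset_left hO.sub (hF.disj t r)
  have hnotO : ∀ r, ∀ u ∈ A r, u ∉ O := fun r u hu h =>
    (Finset.disjoint_left.mp (hdisj r)) h hu
  obtain ⟨hFC1, hFC2⟩ := hFC D V E F M c v₀ A Q hF
  have hb : R₁.p s i ∉ O := hitail i le_rfl hin
  -- the dart g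
  have hg : ∃ g : D, (∃ n, (nxt M O)^[n] d₀ = g) ∧ M.vt g ≠ M.vt d₁ ∧ M.vt g ≠ R₁.p s i ∧
      M.vt g ≠ tg M d₀ := by
    by_cases hR : Rch M O (R₁.p s i) (R₁.z s)
    · have hz : R₁.z s ∈ A s := R₁.hz s hsT
      obtain ⟨w, hw1, hw2⟩ := hFC2 s (R₁.z s) hz
      obtain ⟨g, hg1, hg2⟩ := hBdex D V E F M O (R₁.z s) w (R₁.p s 0) (hnotO s _ hz) hw1
        (fun h => hw2 t (hO.sub h)) (R₁.start s hsT) h0
      have hz' : R₁.z s ∈ A (s + 1) := hF.mono s hz
      refine ⟨g, hSol D V E F M O hO.conn hO.ne d₀ hd₀ g hg1 ?_, ?_, ?_, ?_⟩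
      · rw [hvd₀, hg2]; exact hR
      · rw [hg2]; intro h; rw [h] at hz'; exact hxA hz'
      · rw [hg2]; intro h; rw [h] at hz'; exact hbA hz'
      · rw [hg2]; intro h; rw [h] at hz'; exact hyA hz'
    · have hmeet : ∃ j ≤ R₂.n s, R₂.p s j ∈ O := by
        by_contra hcon
        push_neg at hcon
        apply hR
        have h1 : Rch M O (R₁.p s i) (R₂.p s 0) :=
          hTail D V E F M A Q T X hX R₁ R₂ s t O hsT htT hO.sub i hin 0 (Nat.zero_le _) hitail
            (fun k _ hk => hcon k hk)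
        have hz2 : R₂.z s ∈ A s := R₂.hz s hsT
        have h2 : Rch M O (R₁.p s i) (R₂.z s) :=
          Relation.ReflTransGen.tail h1 ⟨ad_symm (R₂.start s hsT), hnotO s _ hz2⟩
        exact Relation.ReflTransGen.trans h2
          (hFC1 O s (hdisj s) (R₂.z s) hz2 (R₁.z s) (R₁.hz s hsT))
      obtain ⟨j, hj1, hjn, hjO, hjtail, g, hg1, hg2⟩ := hExit D V E F M A Q T X hX R₂ s t O hsT htT
        hO.sub hmeet
      have h1 : Rch M O (R₁.p s i) (R₂.p s j) :=
        hTail D V E F M A Q T X hX R₁ R₂ s t O hsT htT hO.sub i hin j hjn hitail hjtail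
      obtain ⟨hf1, hf2⟩ := hfar s hsT i hi1 hin j hj1 hjn
      refine ⟨g, hSol D V E F M O hO.conn hO.ne d₀ hd₀ g hg1 ?_, ?_, ?_, ?_⟩
      · rw [hvd₀, hg2]; exact h1
      · rw [hg2]; intro h; rw [h] at hf2; exact hf2 hAx
      · rw [hg2]; intro h; exact hf1 h.symm
      · rw [hg2]; intro h; rw [h] at hf2; exact hf2 hAy
  obtain ⟨g, ⟨n, hn⟩, hgx, hgb, hgy⟩ := hg
  -- the image of d₃ is none of d₀, d₁, d₃
  have hkey : nxt M O (nxt M O d₀) ≠ d₀ ∧ nxt M O (nxt M O d₀) ≠ d₁ ∧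
      nxt M O (nxt M O d₀) ≠ nxt M O d₀ := by
    by_contra hcon
    have hcl : ∀ m : ℕ, (nxt M O)^[m] d₀ = d₀ ∨ (nxt M O)^[m] d₀ = d₁ ∨
        (nxt M O)^[m] d₀ = nxt M O d₀ := by
      intro m
      induction m with
      | zero => left; rfl
      | succ m ih =>
        rw [Function.iterate_succ_apply']
        rcases ih with h | h | h
        · rw [h]; right; right; rfl
        · rw [h]; left; exact hd₁n
        · rw [h]
          by_contra hc
          apply hcon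
          push_neg at hc
          exact ⟨hc.1, hc.2.1, hc.2.2⟩
    rcases hcl n with h | h | h
    · rw [hn] at h; rw [h] at hgb; exact hgb hvd₀
    · rw [hn] at h; rw [h] at hgx; exact hgx rfl
    · rw [hn] at h; rw [h] at hgy; exact hgy hv3
  obtain ⟨k0, k1, k3⟩ := hkey
  have n03 : d₀ ≠ nxt M O d₀ := by
    intro h; apply k3; rw [← h, ← h]
  have n13 : d₁ ≠ nxt M O d₀ := by
    intro h; apply k0; rw [← h]; exact hd₁n
  have n23 : d₂ ≠ nxt M O d₀ := by
    intro h; apply k1; rw [← h]; exact hd₂n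
  have n10 : d₁ ≠ d₀ := by
    intro h
    apply n03
    rw [h] at hd₁n
    exact hd₁n.symm
  have n20 : d₂ ≠ d₀ := by
    intro h
    apply n13
    rw [h] at hd₂n
    exact hd₂n.symm
  have n21 : d₂ ≠ d₁ := by
    intro h
    rw [h, hd₁n] at hd₂n
    exact n10 hd₂n.symm
  -- counting
  have hcard : ({d₂, d₁, d₀, nxt M O d₀} : Finset D).card = 4 := by
    rw [Finset.card_insert_of_notMem, Finset.card_insert_of_notMem, Finset.card_insert_of_notMem,
      Finset.card_singleton]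
    · simp only [mem_singleton]; exact n03
    · simp only [mem_insert, mem_singleton, not_or]; exact ⟨n10, n13⟩
    · simp only [mem_insert, mem_singleton, not_or]; exact ⟨n21, n20, n23⟩
  have hdis : Disjoint ((bd M O).filter fun d => M.vt d ∈ A (s + 1) ∧ tg M d ∈ A (s + 1))
      ({d₂, d₁, d₀, nxt M O d₀} : Finset D) := by
    rw [Finset.disjoint_right]
    intro d hd hd'
    simp only [mem_insert, mem_singleton] at hd
    rw [mem_filter] at hd'
    obtain ⟨_, q1, q2⟩ := hd'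
    rcases hd with h | h | h | h
    · rw [h, htg2] at q2; exact hxA q2
    · rw [h] at q1; exact hxA q1
    · rw [h, hvd₀] at q1; exact hbA q1
    · rw [h, hv3] at q1; exact hyA q1
  have hsub : ((bd M O).filter fun d => M.vt d ∈ A (s + 1) ∧ tg M d ∈ A (s + 1)) ∪
      ({d₂, d₁, d₀, nxt M O d₀} : Finset D) ⊆ bd M O := by
    apply Finset.union_subset (Finset.filter_subset _ _)
    intro d hd
    simp only [mem_insert, mem_singleton] at hd
    rcases hd with h | h | h | h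
    · rw [h]; exact hd₂
    · rw [h]; exact hd₁
    · rw [h]; exact hd₀
    · rw [h]; exact hd₃
  have := Finset.card_le_card hsub
  rw [Finset.card_union_of_disjoint hdis, hcard] at this
  exact this

end aux

/-- **P2.** At an event four boundary darts do not burn. -/
theorem p2 (hNxt : StmtNxt) (hSol : StmtSol) (hBdex : StmtBdex) (hFC : StmtFireCon)
    (hEvt : StmtEvt) (hExit : StmtExit) (hTail : StmtTail) : StmtP2 := by
  intro D V E F _ _ _ _ M c v₀ A Q hF T X hX R₁ R₂ hfar s t O hst htT hO h0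
  exact p2_aux hNxt hSol hBdex hFC hEvt hExit hTail c v₀ A Q hF T X hX R₁ R₂ hfar s t O hst htT hO
    h0

end Pool.Agent.Helper13.UB
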